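import Mathlib
import Pool.Agent.Q166.BInv

/-!
# MP_eb5881_co: the two descent statistics are equidistributed on the involutions of `B_n`
-/

set_option autoImplicit false

open scoped Classical

namespace Pool.Agent.Results.MP_eb5881_co.Equidistribution

/-- `Ω_n = {±1, …, ±n}`. -/
abbrev Om (n : ℕ) : Type := {a : ℤ // a ∈ (Finset.Icc (-(n : ℤ)) n).erase 0}

/-- `w(-a) = -w(a)` for all `a`, i.e. `w` is an element of `B_n`. -/
def IsSigned {n : ℕ} (w : Equiv.Perm (Om n)) : Prop :=
  ∀ a b : Om n, (b : ℤ) = -(a : ℤ) → ((w b : Om n) : ℤ) = -((w a : Om n) : ℤ)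

/-- The involutions of `B_n`. -/
noncomputable def invB (n : ℕ) : Finset (Equiv.Perm (Om n)) :=
  Finset.univ.filter (fun w => IsSigned w ∧ ∀ a, w (w a) = a)

/-- `w(i)` as an integer, with `w(0) = 0`. -/
noncomputable def val {n : ℕ} (w : Equiv.Perm (Om n)) (i : ℤ) : ℤ :=
  if h : i ∈ (Finset.Icc (-(n : ℤ)) n).erase 0 then ((w ⟨i, h⟩ : Om n) : ℤ) else 0

/-- The order `-1 < -2 < -3 < ⋯ < 0 < 1 < 2 < ⋯` on the integers. -/
def LtR (a b : ℤ) : Prop := (a < 0 ∧ b < 0 ∧ b < a) ∨ (a < 0 ∧ 0 ≤ b) ∨ (0 ≤ a ∧ a < b)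

/-- Descent set for the order `LtR`. -/
noncomputable def DesLower {n : ℕ} (w : Equiv.Perm (Om n)) : Finset ℕ :=
  (Finset.range n).filter (fun i => LtR (val w ((i : ℤ) + 1)) (val w (i : ℤ)))

/-- Descent set for the usual order. -/
noncomputable def DesUpper {n : ℕ} (w : Equiv.Perm (Om n)) : Finset ℕ :=
  (Finset.range n).filter (fun i => val w ((i : ℤ) + 1) < val w (i : ℤ))

/-- `I_n^B(x)`, the generating polynomial of `des_B` on the involutions. -/
noncomputable def IB (n : ℕ) : Polynomial ℤ := ∑ w ∈ invB n, Polynomial.X ^ (DesLower w).card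

/-- The generating polynomial of `des^B` on the involutions. -/
noncomputable def IB' (n : ℕ) : Polynomial ℤ := ∑ w ∈ invB n, Polynomial.X ^ (DesUpper w).card

open Q166.BInv

variable {n : ℕ}

theorem mem_Om {a : ℤ} : a ∈ (Finset.Icc (-(n : ℤ)) n).erase 0 ↔ a ≠ 0 ∧ -(n : ℤ) ≤ a ∧ a ≤ n := by
  rw [Finset.mem_erase, Finset.mem_Icc]

theorem K_mem (b : Fin n) (e : Bool) : K n true b e ∈ (Finset.Icc (-(n : ℤ)) n).erase 0 := by
  have := b.2
  rw [mem_Om]
  cases e <;> simp only [K, if_true, Bool.false_eq_true, if_false] <;> omega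

theorem neg_mem {a : ℤ} (h : a ∈ (Finset.Icc (-(n : ℤ)) n).erase 0) :
    -a ∈ (Finset.Icc (-(n : ℤ)) n).erase 0 := by
  rw [mem_Om] at h ⊢
  omega

/-- the index of `±(a + 1)` -/
def idx (x : Om n) : Fin n := ⟨x.1.natAbs - 1, by
  have := mem_Om.1 x.2
  omega⟩

theorem idx_val (x : Om n) : ((idx x : Fin n) : ℤ) + 1 = |x.1| := by
  have := mem_Om.1 x.2
  simp only [idx]
  rw [Int.abs_eq_natAbs]
  omega

def f (v : SI n) (x : Om n) : Om n :=
  if 0 < x.1 then ⟨K n true (v.1.1 (idx x)) (v.1.2 (idx x)), K_mem _ _⟩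
  else ⟨-K n true (v.1.1 (idx x)) (v.1.2 (idx x)), neg_mem (K_mem _ _)⟩

theorem f_val (v : SI n) (x : Om n) : (f v x).1 =
    if 0 < x.1 then K n true (v.1.1 (idx x)) (v.1.2 (idx x))
    else -K n true (v.1.1 (idx x)) (v.1.2 (idx x)) := by
  unfold f
  split_ifs <;> rfl

theorem idx_eq {x : Om n} {a : Fin n} (h : x.1 = (a : ℤ) + 1 ∨ x.1 = -((a : ℤ) + 1)) :
    idx x = a := by
  ext
  simp only [idx]
  omega

theorem idx_f (v : SI n) (x : Om n) : idx (f v x) = v.1.1 (idx x) := by
  apply idx_eq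
  rw [f_val]
  rcases Bool.eq_false_or_eq_true (v.1.2 (idx x)) with h | h <;> rw [h] <;>
    simp only [K, if_true, Bool.false_eq_true, if_false] <;> split_ifs <;> omega

theorem f_f (v : SI n) (x : Om n) : f v (f v x) = x := by
  apply Subtype.ext
  rw [f_val, idx_f, v.2.1, v.2.2, f_val]
  have h1 := idx_val x
  have h2 := mem_Om.1 x.2
  rcases Bool.eq_false_or_eq_true (v.1.2 (idx x)) with h | h <;> rw [h] <;>
    simp only [K, if_true, Bool.false_eq_true, if_false] <;>
    rcases lt_or_ge 0 x.1 with h3 | h3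
  · rw [if_pos h3, if_pos (by omega), abs_of_pos h3] at *; omega
  · rw [if_neg (not_lt.2 h3), if_neg (by omega)]
    rw [abs_of_nonpos h3] at h1; omega
  · rw [if_pos h3, if_neg (by omega)]
    rw [abs_of_pos h3] at h1; omega
  · rw [if_neg (not_lt.2 h3), if_pos (by omega)]
    rw [abs_of_nonpos h3] at h1; omega

def toPerm (v : SI n) : Equiv.Perm (Om n) := Function.Involutive.toPerm (f v) (f_f v)

theorem toPerm_apply (v : SI n) (x : Om n) : toPerm v x = f v x := rfl

theorem toPerm_mem (v : SI n) : toPerm v ∈ invB n := by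
  refine Finset.mem_filter.2 ⟨Finset.mem_univ _, ?_, fun a => f_f v a⟩
  intro a b hab
  rw [toPerm_apply, toPerm_apply, f_val, f_val]
  have h1 : idx b = idx a := by
    ext
    simp only [idx]
    omega
  have h2 := mem_Om.1 a.2
  rw [h1]
  rcases lt_or_ge 0 a.1 with h3 | h3
  · rw [if_pos h3, if_neg (by omega)]
  · rw [if_neg (not_lt.2 h3), if_pos (by omega), neg_neg]

/-- the positive element `a + 1` -/
def pos (a : Fin n) : Om n := ⟨(a : ℤ) + 1, by
  have := a.2
  rw [mem_Om]; omega⟩

theorem idx_pos (a : Fin n) : idx (pos a) = a := idx_eq (Or.inl rfl)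

theorem toPerm_pos (v : SI n) (a : Fin n) :
    ((toPerm v (pos a) : Om n) : ℤ) = K n true (v.1.1 a) (v.1.2 a) := by
  rw [toPerm_apply, f_val, idx_pos, if_pos]
  show (0 : ℤ) < (a : ℤ) + 1
  omega

theorem val_toPerm (v : SI n) (i : ℕ) (hi : i ≤ n) : val (toPerm v) (i : ℤ) = kv true v i := by
  rcases Nat.eq_zero_or_pos i with rfl | h
  · rw [kv_zero, val, dif_neg]
    rw [mem_Om]; simp
  · obtain ⟨a, ha⟩ : ∃ a : Fin n, a.1 + 1 = i := ⟨⟨i - 1, by omega⟩, by simp only; omega⟩
    rw [← ha, kv_succ, val, dif_pos (by rw [mem_Om]; have := a.2; push_cast; omega), ← toPerm_pos]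
    rfl

theorem ltR_iff (v : SI n) (i j : ℕ) (hi : i ≤ n) (hj : j ≤ n) :
    LtR (kv true v i) (kv true v j) ↔ kv false v i < kv false v j := by
  have hval : ∀ k, k ≤ n → (kv true v k = 0 ∧ kv false v k = 0) ∨
      (0 < kv true v k ∧ kv false v k = kv true v k) ∨
      (kv true v k < 0 ∧ -(n : ℤ) ≤ kv true v k ∧ kv false v k = -kv true v k - 1 - n) := by
    intro k hk
    rcases Nat.eq_zero_or_pos k with rfl | h
    · left; rw [kv_zero, kv_zero]; exact ⟨rfl, rfl⟩
    · obtain ⟨a, ha⟩ : ∃ a : Fin n, a.1 + 1 = k := ⟨⟨k - 1, by omega⟩, by simp only; omega⟩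
      right
      rw [← ha, kv_succ, kv_succ]
      have := (v.1.1 a).2
      generalize v.1.1 a = b at *
      rcases Bool.eq_false_or_eq_true (v.1.2 a) with h | h
      · left
        rw [h]
        simp only [K, if_true, and_true]
        omega
      · right
        rw [h]
        simp only [K, if_true, Bool.false_eq_true, if_false]
        omega
  have h1 := hval i hi
  have h2 := hval j hj
  unfold LtR
  omega

theorem des_upper (v : SI n) : DesUpper (toPerm v) = Des true v := by
  unfold DesUpper Des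
  apply Finset.filter_congr
  intro i hi
  rw [Finset.mem_range] at hi
  have h := val_toPerm v (i + 1) (by omega)
  push_cast at h
  rw [h, val_toPerm v i (by omega)]

theorem des_lower (v : SI n) : DesLower (toPerm v) = Des false v := by
  unfold DesLower Des
  apply Finset.filter_congr
  intro i hi
  rw [Finset.mem_range] at hi
  have h := val_toPerm v (i + 1) (by omega)
  push_cast at h
  rw [h, val_toPerm v i (by omega), ltR_iff v (i + 1) i (by omega) (by omega)]

theorem toPerm_inj : Function.Injective (toPerm (n := n)) := by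
  intro v v' h
  have h1 : ∀ a, K n true (v.1.1 a) (v.1.2 a) = K n true (v'.1.1 a) (v'.1.2 a) := by
    intro a
    rw [← toPerm_pos, ← toPerm_pos, h]
  apply Subtype.ext
  apply Prod.ext
  · funext a; exact (K_inj (h1 a)).1
  · funext a; exact (K_inj (h1 a)).2

theorem toPerm_surj {w : Equiv.Perm (Om n)} (hw : w ∈ invB n) : ∃ v : SI n, toPerm v = w := by
  obtain ⟨_, hs, hi⟩ := Finset.mem_filter.1 hw
  have hK : ∀ x : Om n, x.1 = K n true (idx x) (decide (0 < x.1)) := by
    intro x
    have h1 := idx_val x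
    have h2 := mem_Om.1 x.2
    rcases lt_or_ge 0 x.1 with h3 | h3
    · rw [abs_of_pos h3] at h1
      simp only [K, h3, decide_true, if_true]; omega
    · rw [abs_of_nonpos h3] at h1
      simp only [K, not_lt.2 h3, decide_false, if_true, Bool.false_eq_true, if_false]; omega
  -- the value at `± (a + 1)`
  have hkey : ∀ a : Fin n, (0 < (w (pos a)).1 ∧ w (pos (idx (w (pos a)))) = pos a) ∨
      ((w (pos a)).1 < 0 ∧ ((w (pos (idx (w (pos a)))) : Om n) : ℤ) = -(pos a).1) := by
    intro a
    have h2 := mem_Om.1 (w (pos a)).2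
    have h1 := idx_val (w (pos a))
    rcases lt_or_ge 0 (w (pos a)).1 with h3 | h3
    · left
      refine ⟨h3, ?_⟩
      rw [abs_of_pos h3] at h1
      have h4 : pos (idx (w (pos a))) = w (pos a) := Subtype.ext h1
      rw [h4, hi]
    · right
      rw [abs_of_nonpos h3] at h1
      refine ⟨by omega, ?_⟩
      have h4 := hs (w (pos a)) (pos (idx (w (pos a)))) h1
      rw [h4, hi]
  let v : SI n := ⟨(fun a => idx (w (pos a)), fun a => decide (0 < (w (pos a)).1)), by
    constructor
    · intro a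
      simp only
      rcases hkey a with ⟨_, h⟩ | ⟨_, h⟩
      · rw [h, idx_pos]
      · exact idx_eq (Or.inr h)
    · intro a
      simp only
      rcases hkey a with ⟨h1, h⟩ | ⟨h1, h⟩
      · rw [h]
        simp only [h1, decide_true]
        have : (0 : ℤ) < (pos a).1 := by simp only [pos]; omega
        simp [this]
      · have h2 : ¬ (0 < (w (pos a)).1) := by omega
        have h3 : (0 : ℤ) < (pos a).1 := by simp only [pos]; omega
        have h4 : ¬ (0 < (w (pos (idx (w (pos a))))).1) := by rw [h]; omega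
        simp only [h2, h4]⟩
  refine ⟨v, ?_⟩
  apply Equiv.ext
  intro x
  apply Subtype.ext
  have h2 := mem_Om.1 x.2
  have h1 := idx_val x
  have h4 := hK (w (pos (idx x)))
  rw [toPerm_apply, f_val]
  rcases lt_or_ge 0 x.1 with h3 | h3
  · rw [if_pos h3]
    rw [abs_of_pos h3] at h1
    have h5 : pos (idx x) = x := Subtype.ext h1
    have h6 : K n true (v.1.1 (idx x)) (v.1.2 (idx x)) = (w (pos (idx x))).1 := h4.symm
    rw [h6, h5]
  · rw [if_neg (not_lt.2 h3)]
    rw [abs_of_nonpos h3] at h1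
    have h5 := hs x (pos (idx x)) h1
    have h6 : K n true (v.1.1 (idx x)) (v.1.2 (idx x)) = (w (pos (idx x))).1 := h4.symm
    rw [h6, h5, neg_neg]

theorem sum_eq {M : Type} [AddCommMonoid M] (g : Finset ℕ → M) :
    (∑ w ∈ invB n, g (DesLower w) = ∑ v : SI n, g (Des false v)) ∧
    (∑ w ∈ invB n, g (DesUpper w) = ∑ v : SI n, g (Des true v)) := by
  constructor
  · symm
    apply Finset.sum_bij (fun v _ => toPerm v)
    · intro v _; exact toPerm_mem v
    · intro v _ v' _ h; exact toPerm_inj h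
    · intro w hw
      obtain ⟨v, hv⟩ := toPerm_surj hw
      exact ⟨v, Finset.mem_univ _, hv⟩
    · intro v _; rw [des_lower]
  · symm
    apply Finset.sum_bij (fun v _ => toPerm v)
    · intro v _; exact toPerm_mem v
    · intro v _ v' _ h; exact toPerm_inj h
    · intro w hw
      obtain ⟨v, hv⟩ := toPerm_surj hw
      exact ⟨v, Finset.mem_univ _, hv⟩
    · intro v _; rw [des_upper]

/-- On the involutions of `B_n` the two descent statistics are equidistributed,
`I_n^B(x) = Ĩ_n^B(x)`; even the two descent sets are equidistributed. -/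
theorem result : (∀ n : ℕ, 1 ≤ n → IB n = IB' n) ∧
    ∀ (n : ℕ) (D : Finset ℕ), ((invB n).filter (fun w => DesLower w = D)).card =
      ((invB n).filter (fun w => DesUpper w = D)).card := by
  constructor
  · intro n _
    unfold IB IB'
    rw [(sum_eq (fun D => (Polynomial.X : Polynomial ℤ) ^ D.card)).1,
      (sum_eq (fun D => (Polynomial.X : Polynomial ℤ) ^ D.card)).2,
      sum_des_eq (fun D => (Polynomial.X : Polynomial ℤ) ^ D.card)]
  · intro n D
    rw [Finset.card_filter, Finset.card_filter, (sum_eq (fun E => if E = D then 1 else 0)).1,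
      (sum_eq (fun E => if E = D then 1 else 0)).2, sum_des_eq (fun E => if E = D then 1 else 0)]

end Pool.Agent.Results.MP_eb5881_co.Equidistribution
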